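import Mathlib
import Pool.Agent.H242R3.ES.StmtsG

/-! Project H242-ES, task G1: a face of a face is a face. -/

set_option autoImplicit false

open MeasureTheory Finset
open scoped Classical

namespace Pool.Agent.H603R3.ESG1

open Pool.Agent.H242R3.ES

theorem t : TaskG1 := by
  intro ι E _ _ _ _ V S T hS hTS hT
  obtain ⟨lS, hS1, hS2⟩ := hS
  obtain ⟨l, hl1, hl2⟩ := hT
  set N : ℝ := 1 + ∑ i, |l (V i)| / lS (V i) with hN
  have hterm : ∀ i, 0 ≤ |l (V i)| / lS (V i) := fun i => div_nonneg (abs_nonneg _) (hS1 i)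
  have hbig : ∀ i, 1 + |l (V i)| / lS (V i) ≤ N := by
    intro i
    have := Finset.single_le_sum (f := fun i => |l (V i)| / lS (V i)) (fun j _ => hterm j)
      (Finset.mem_univ i)
    rw [hN]
    linarith
  have hout : ∀ i, i ∉ S → 0 < N * lS (V i) + l (V i) := by
    intro i hi
    have hpos : 0 < lS (V i) :=
      lt_of_le_of_ne (hS1 i) fun h => hi ((hS2 i).2 h.symm)
    have h1 : (1 + |l (V i)| / lS (V i)) * lS (V i) ≤ N * lS (V i) :=
      mul_le_mul_of_nonneg_right (hbig i) hpos.le
    have h2 : (1 + |l (V i)| / lS (V i)) * lS (V i) = lS (V i) + |l (V i)| := by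
      field_simp
    have h3 := neg_abs_le (l (V i))
    linarith
  have hin : ∀ i, i ∈ S → N * lS (V i) + l (V i) = l (V i) := by
    intro i hi
    rw [(hS2 i).1 hi]
    ring
  refine ⟨N • lS + l, ?_, ?_⟩
  · intro i
    show 0 ≤ N * lS (V i) + l (V i)
    by_cases hi : i ∈ S
    · rw [hin i hi]; exact hl1 i hi
    · exact (hout i hi).le
  · intro i
    show i ∈ T ↔ N * lS (V i) + l (V i) = 0
    by_cases hi : i ∈ S
    · rw [hin i hi]; exact hl2 i hi
    · constructor
      · intro h; exact absurd (hTS h) hi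
      · intro h; exact absurd h (hout i hi).ne'

end Pool.Agent.H603R3.ESG1
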